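import Pool.Agent.Lib_helper13.Robin.Final

/-!
# MP_88fc3a_an, Q1: superlevel sets of Robin ground states on convex polyhedra

The whole remaining case of Q1: `d ≥ 3`, all boundary points have consistent normals, the domain
is not a product of circumsolids.  Then for all sufficiently small `α > 0` the Robin ground state
has a non-convex superlevel set.

Definitions (all in `Lib_helper13/Robin/Defs.lean`):
* `E d` : Euclidean space of dimension `d`;
* `RGS Ω α lam u` : `u` is a positive weak Robin eigenfunction with eigenvalue `lam`;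
* `IsCircumsolid F S`, `IsProdCirc Ω` : circumsolids in a subspace, products of circumsolids.
-/

namespace Pool.Agent.Results.MP_88fc3a_an.ConsistentNormals

open MeasureTheory Set
open scoped RealInnerProductSpace
open Pool.Agent.Lib_helper13.Robin

theorem result {d m : ℕ} (hd : 3 ≤ d) (ν : Fin m → E d) (b : Fin m → ℝ) (Ω : Set (E d))
    (hΩ : Ω = {x : E d | ∀ i, ⟪ν i, x⟫ < b i})
    (hν : ∀ i, ‖ν i‖ = 1) (hb : Bornology.IsBounded Ω) (hne : Ω.Nonempty)
    (hc : ∀ x ∈ frontier Ω, ∃ γ : E d, ∀ i, ⟪ν i, x⟫ = b i → ⟪ν i, γ⟫ = -1)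
    (hnp : ¬ IsProdCirc Ω) :
    ∃ α₀ : ℝ, 0 < α₀ ∧ ∀ α : ℝ, 0 < α → α < α₀ → ∀ (lam : ℝ) (u : E d → ℝ),
      RGS Ω α lam u → ∃ t : ℝ, ¬ Convex ℝ {x | x ∈ Ω ∧ t ≤ u x} := by
  subst hΩ
  have hc' : ∀ x : E d, (∀ i, ⟪ν i, x⟫ ≤ b i) →
      ∃ γ : E d, ∀ i, ⟪ν i, x⟫ = b i → ⟪ν i, γ⟫ = -1 := by
    intro x hx
    by_cases hxf : x ∈ frontier {x : E d | ∀ i, ⟪ν i, x⟫ < b i}
    · exact hc x hxf
    · refine ⟨0, fun i hi => ?_⟩
      exfalso
      apply hxf
      have hopen : IsOpen {x : E d | ∀ i, ⟪ν i, x⟫ < b i} := by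
        rw [setOf_forall]
        exact isOpen_iInter_of_finite fun i => isOpen_lt (by fun_prop) continuous_const
      rw [frontier, hopen.interior_eq]
      refine ⟨?_, fun h => absurd (h i) (by rw [hi]; exact lt_irrefl _)⟩
      obtain ⟨z, hz⟩ := hne
      have hcont : ContinuousWithinAt (fun t : ℝ => (1 - t) • x + t • z) (Ioc 0 1) 0 := by
        apply Continuous.continuousWithinAt; fun_prop
      have h0 : (0 : ℝ) ∈ closure (Ioc (0 : ℝ) 1) := by
        rw [closure_Ioc (by norm_num)]; simp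
      have h1 := hcont.mem_closure_image h0
      simp only [sub_zero, one_smul, zero_smul, add_zero] at h1
      refine closure_mono ?_ h1
      rintro _ ⟨t, ht, rfl⟩
      intro j
      change ⟪ν j, (1 - t) • x + t • z⟫ < b j
      rw [inner_add_right, inner_smul_right, inner_smul_right]
      have e1 : (1 - t) * ⟪ν j, x⟫ ≤ (1 - t) * b j :=
        mul_le_mul_of_nonneg_left (hx j) (by linarith [ht.2])
      have e2 : t * ⟪ν j, z⟫ < t * b j := mul_lt_mul_of_pos_left (hz j) ht.1
      linarith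
  obtain ⟨α₀, h0, h⟩ := robin_final hd ν b hν hb hne hc' hnp
  exact ⟨α₀, h0, fun α h1 h2 lam u hu => h α ⟨h1, h2⟩ lam u hu⟩

end Pool.Agent.Results.MP_88fc3a_an.ConsistentNormals
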